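import Pool.Agent.Helper32_ND.Stmts

/-!
# Squad ND: module RADJ (the adjoint of the wedge product with `ρ` is the boundary).
-/

set_option autoImplicit false
set_option linter.unusedSectionVars false

namespace Pool.Agent.ND.H37

open Finset

section

variable {ι : Type} [Fintype ι] [DecidableEq ι] {n : ℕ} {A : Arr ι n} {K : Type} [Field K]

theorem pr_e {r : ℕ} (X : Finset ι) (F : Fin r → ι) :
    pr r X (e A K F) = if A.cl F = X then e A K F else 0 := by
  unfold pr
  rw [dg_e]
  split_ifs with h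
  · rw [one_smul]
  · rw [zero_smul]

/-- the value on a generator -/
theorem R_succ_e (ρ : ι → K) (r : ℕ) (a : OS A K (r + 1)) (G : Fin (r + 1) → ι) :
    R A ρ (r + 1) a (e A K G) = (∑ i ∈ A.cl G, ρ i)⁻¹ *
      R A ρ r (bd A K r (pr (r + 1) (A.cl G) a)) (bd A K r (e A K G)) := by
  rw [R_succ, Finset.sum_eq_single (A.cl G)]
  · rw [pr_e, if_pos rfl]
  · intro X _ hX
    rw [pr_e, if_neg (Ne.symm hX), map_zero, map_zero, mul_zero]
  · intro h
    exact absurd (Finset.mem_univ _) h

theorem R_orth (ρ : ι → K) (r : ℕ) (F G : Fin (r + 1) → ι) (h : A.cl F ≠ A.cl G) :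
    R A ρ (r + 1) (e A K F) (e A K G) = 0 := by
  rw [R_succ_e, pr_e, if_neg h, map_zero, map_zero, LinearMap.zero_apply, mul_zero]

theorem cl_eq_of {r : ℕ} {F G : Fin r → ι} (hF : A.Ind F) (hG : A.Ind G)
    (h : ∀ k, F k ∈ A.cl G) : A.cl F = A.cl G := by
  have hle : Submodule.span ℂ (Set.range fun k => A.L (F k))
      ≤ Submodule.span ℂ (Set.range fun k => A.L (G k)) := by
    rw [Submodule.span_le]
    rintro x ⟨k, rfl⟩
    exact (A.mem_cl G (F k)).1 (h k)
  have heq : Submodule.span ℂ (Set.range fun k => A.L (F k))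
      = Submodule.span ℂ (Set.range fun k => A.L (G k)) := by
    refine Submodule.eq_of_le_of_finrank_eq hle ?_
    rw [finrank_span_eq_card hF, finrank_span_eq_card hG]
  ext i
  rw [Arr.mem_cl, Arr.mem_cl, heq]

theorem mem_cl_cons_self {r : ℕ} (i : ι) (F : Fin r → ι) :
    i ∈ A.cl (Fin.cons i F : Fin (r + 1) → ι) := by
  have := self_mem_cl (A := A) (Fin.cons i F : Fin (r + 1) → ι) 0
  rwa [Fin.cons_zero] at this

theorem mem_cl_cons_tail {r : ℕ} (i : ι) (F : Fin r → ι) (k : Fin r) :
    F k ∈ A.cl (Fin.cons i F : Fin (r + 1) → ι) := by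
  have := self_mem_cl (A := A) (Fin.cons i F : Fin (r + 1) → ι) k.succ
  rwa [Fin.cons_succ] at this

/-- the projection of `ρ ∧ e_F` -/
theorem pr_wX {r : ℕ} (ρ : ι → K) (F : Fin r → ι) (G : Fin (r + 1) → ι) (hF : A.Ind F)
    (hG : A.Ind G) : pr (r + 1) (A.cl G) (wX r ρ univ (e A K F))
      = if (∀ k, F k ∈ A.cl G) then wX r ρ (A.cl G) (e A K F) else 0 := by
  rw [wX_apply, map_sum]
  have h1 : ∀ i, pr (r + 1) (A.cl G) (ρ i • wd A K r i (e A K F))
      = if A.cl (Fin.cons i F : Fin (r + 1) → ι) = A.cl G then ρ i • wd A K r i (e A K F)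
        else 0 := by
    intro i
    rw [map_smul, wd_e, pr_e]
    split_ifs with h
    · rfl
    · rw [smul_zero]
  rw [Finset.sum_congr rfl fun i _ => h1 i]
  split_ifs with h
  · rw [wX_apply, ← Finset.sum_filter]
    have hsub : (univ.filter fun i => A.cl (Fin.cons i F : Fin (r + 1) → ι) = A.cl G) ⊆ A.cl G := by
      intro i hi
      rw [Finset.mem_filter] at hi
      rw [← hi.2]
      exact mem_cl_cons_self i F
    refine Finset.sum_subset hsub ?_
    intro i hi hi2
    rw [wd_e_mem, smul_zero]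
    by_contra h3
    apply hi2
    rw [Finset.mem_filter]
    refine ⟨Finset.mem_univ _, ?_⟩
    refine cl_eq_of ((Ind_cons_iff i F).2 ⟨hF, h3⟩) hG fun k => ?_
    refine Fin.cases ?_ (fun k => ?_) k
    · rw [Fin.cons_zero]
      exact hi
    · rw [Fin.cons_succ]
      exact h k
  · refine Finset.sum_eq_zero fun i _ => ?_
    rw [if_neg]
    intro h3
    apply h
    intro k
    rw [← h3]
    exact mem_cl_cons_tail i F k

/-- orthogonality: entries outside the closure -/
theorem R_orth_bd (ρ : ι → K) (r : ℕ) (F : Fin (r + 1) → ι) (G : Fin (r + 2) → ι) (i : ι)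
    (hi : i ∈ A.cl F) (hi2 : i ∉ A.cl G) :
    R A ρ (r + 1) (e A K F) (bd A K (r + 1) (e A K G)) = 0 := by
  rw [bd_e, map_sum]
  refine Finset.sum_eq_zero fun k _ => ?_
  rw [map_smul, R_orth, smul_zero]
  intro h
  apply hi2
  rw [h] at hi
  exact cl_comp_subset G _ hi

/-- the two wedge products have the same value -/
theorem R_wX_univ (ρ : ι → K) (r : ℕ) (x : OS A K r) (G : Fin (r + 2) → ι) :
    R A ρ (r + 1) (wX r ρ (A.cl G) x) (bd A K (r + 1) (e A K G))
      = R A ρ (r + 1) (wX r ρ univ x) (bd A K (r + 1) (e A K G)) := by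
  have h : ((R A ρ (r + 1)).flip (bd A K (r + 1) (e A K G))).comp (wX r ρ (A.cl G))
      = ((R A ρ (r + 1)).flip (bd A K (r + 1) (e A K G))).comp (wX r ρ univ) := by
    refine hom_ext fun F => ?_
    rw [LinearMap.comp_apply, LinearMap.comp_apply, LinearMap.flip_apply, LinearMap.flip_apply,
      wX_apply, wX_apply, map_sum, map_sum, LinearMap.sum_apply, LinearMap.sum_apply]
    refine Finset.sum_subset (Finset.subset_univ _) fun i _ hi => ?_
    rw [map_smul, LinearMap.smul_apply, wd_e, R_orth_bd ρ r _ G i (mem_cl_cons_self i F) hi,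
      smul_zero]
  exact LinearMap.congr_fun h x

theorem eps0_e (F : Fin 0 → ι) : eps0 A K (e A K F) = 1 := lift_e _ _ _ _

theorem radj_e (ρ : ι → K) (hρ : NR ρ) (r : ℕ)
    (ih : ∀ q, r = q + 1 → ∀ (c : OS A K q) (b : OS A K (q + 1)),
      R A ρ (q + 1) (wX q ρ univ c) b = R A ρ q c (bd A K q b))
    (F : Fin r → ι) (G : Fin (r + 1) → ι) (hF : A.Ind F) (hG : A.Ind G) :
    R A ρ (r + 1) (wX r ρ univ (e A K F)) (e A K G)
      = R A ρ r (e A K F) (bd A K r (e A K G)) := by
  have hne : ∑ i ∈ A.cl G, ρ i ≠ 0 := hρ _ ⟨G 0, self_mem_cl G 0⟩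
  rw [R_succ_e, pr_wX ρ F G hF hG]
  cases r with
  | zero =>
    rw [if_pos (fun k => k.elim0)]
    have h1 : bd A K 0 (wX 0 ρ (A.cl G) (e A K F)) = (∑ i ∈ A.cl G, ρ i) • e A K F := by
      rw [wX_apply, map_sum, Finset.sum_smul]
      refine Finset.sum_congr rfl fun i _ => ?_
      rw [map_smul, bd_wd_zero]
    rw [h1, map_smul, LinearMap.smul_apply, smul_eq_mul, ← mul_assoc, inv_mul_cancel₀ hne, one_mul]
  | succ r =>
    split_ifs with h
    · rw [bd_wX, map_sub, LinearMap.sub_apply, map_smul, LinearMap.smul_apply, smul_eq_mul,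
        mul_sub, ← mul_assoc, inv_mul_cancel₀ hne, one_mul, R_wX_univ, ih r rfl, bd_bd, map_zero,
        mul_zero, sub_zero]
    · rw [map_zero, map_zero, LinearMap.zero_apply, mul_zero]
      push Not at h
      obtain ⟨k, hk⟩ := h
      rw [R_orth_bd ρ r F G (F k) (self_mem_cl F k) hk]

theorem radj_all (ρ : ι → K) (hρ : NR ρ) (r : ℕ) : ∀ (c : OS A K r) (b : OS A K (r + 1)),
    R A ρ (r + 1) (wX r ρ univ c) b = R A ρ r c (bd A K r b) := by
  induction r with
  | zero =>
    intro c b
    have h : (R A ρ 1).comp (wX 0 ρ univ) = (LinearMap.lcomp K K (bd A K 0)).comp (R A ρ 0) := by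
      refine hom_ext fun F => ?_
      refine hom_ext fun G => ?_
      rw [LinearMap.comp_apply, LinearMap.comp_apply, LinearMap.lcomp_apply]
      by_cases hG : A.Ind G
      · exact radj_e ρ hρ 0 (fun q hq => by omega) F G (Ind_empty F) hG
      · rw [e_dep hG, map_zero, map_zero, map_zero]
    exact LinearMap.congr_fun (LinearMap.congr_fun h c) b
  | succ r ih =>
    intro c b
    have h : (R A ρ (r + 2)).comp (wX (r + 1) ρ univ)
        = (LinearMap.lcomp K K (bd A K (r + 1))).comp (R A ρ (r + 1)) := by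
      refine hom_ext fun F => ?_
      refine hom_ext fun G => ?_
      rw [LinearMap.comp_apply, LinearMap.comp_apply, LinearMap.lcomp_apply]
      by_cases hG : A.Ind G
      · by_cases hF : A.Ind F
        · refine radj_e ρ hρ (r + 1) (fun q hq => ?_) F G hF hG
          have : q = r := by omega
          subst this
          exact ih
        · rw [e_dep hF, map_zero, map_zero, map_zero, LinearMap.zero_apply, LinearMap.zero_apply]
      · rw [e_dep hG, map_zero, map_zero, map_zero]
    exact LinearMap.congr_fun (LinearMap.congr_fun h c) b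

end

/-- RADJ. -/
theorem radj : RadjStmt := by
  intro ι _ _ n A K _ ρ hρ r c b
  exact radj_all ρ hρ r c b

end Pool.Agent.ND.H37
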