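import Pool.Agent.Helper32_ND.Stmts

/-!
# Squad ND: module TSUR (the shift operators are surjective on the lattices).
-/

set_option autoImplicit false
set_option linter.unusedSectionVars false

namespace Pool.Agent.ND.H37

open Finset

section

variable {ι : Type} [Fintype ι] [DecidableEq ι] {n : ℕ} {A : Arr ι n} {K : Type} [Field K]

theorem e_mem_Lat (O : Subring K) {r : ℕ} (F : Fin r → ι) : e A K F ∈ Lat A O r :=
  Submodule.subset_span ⟨F, rfl⟩

theorem smul_mem_Lat (O : Subring K) {r : ℕ} {c : K} (hc : c ∈ O) {x : OS A K r}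
    (hx : x ∈ Lat A O r) : c • x ∈ Lat A O r :=
  (Lat A O r).smul_mem (⟨c, hc⟩ : O) hx

theorem map_Lat (O : Subring K) {r q : ℕ} (f : OS A K r →ₗ[K] OS A K q)
    (hf : ∀ F, f (e A K F) ∈ Lat A O q) {x : OS A K r} (hx : x ∈ Lat A O r) :
    f x ∈ Lat A O q := by
  unfold Lat at hx
  induction hx using Submodule.span_induction with
  | mem x hx =>
    obtain ⟨F, rfl⟩ := hx
    exact hf F
  | zero =>
    rw [map_zero]
    exact Submodule.zero_mem _
  | add x y _ _ hx hy =>
    rw [map_add]
    exact Submodule.add_mem _ hx hy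
  | smul c x _ hx =>
    have : f (c • x) = c • f x := by
      change f ((c : K) • x) = (c : K) • f x
      rw [map_smul]
    rw [this]
    exact Submodule.smul_mem _ _ hx

theorem cl_univ {n : ℕ} {A : Arr ι n} {F : Fin n → ι} (hF : A.Ind F) : A.cl F = univ := by
  have h : Submodule.span ℂ (Set.range fun k => A.L (F k)) = ⊤ := by
    refine LinearIndependent.span_eq_top_of_card_eq_finrank' hF ?_
    simp
  ext i
  rw [Arr.mem_cl, h]
  simp

end

section

variable {ι : Type} [Fintype ι] [DecidableEq ι] {M : ℕ} {A : Arr ι (M + 2)} {K : Type} [Field K]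
  [Algebra ℂ K]

theorem Mj_e (P : Pts A) (j : ι) (F : Fin (M + 1) → ι) :
    Mj P j (e A K F) = algebraMap ℂ K (dotProduct (A.L j) (P.v (A.cl F))) • e A K F := by
  unfold Mj
  rw [dg_e]

theorem Mj_wd (P : Pts A) (j : ι) (x : OS A K M) : Mj P j (wd A K M j x) = 0 := by
  have h : (Mj P j).comp (wd A K M j) = (0 : OS A K M →ₗ[K] OS A K (M + 1)) := by
    refine hom_ext fun F => ?_
    rw [LinearMap.comp_apply, wd_e, Mj_e, LinearMap.zero_apply]
    by_cases hF : A.Ind (Fin.cons j F : Fin (M + 1) → ι)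
    · have h1 : j ∈ A.cl (Fin.cons j F : Fin (M + 1) → ι) := by
        have := self_mem_cl (A := A) (Fin.cons j F : Fin (M + 1) → ι) 0
        rwa [Fin.cons_zero] at this
      rw [(P.vmem _ hF j).2 h1, map_zero, zero_smul]
    · rw [e_dep hF, smul_zero]
  exact LinearMap.congr_fun h x

/-- every element of the span of the good generators is in the image of `Mj` -/
theorem exists_Mj (P : Pts A) (O : Subring K) (hO : ∀ c : ℂ, algebraMap ℂ K c ∈ O) (j : ι)
    {y : OS A K (M + 1)} (hy : y ∈ Submodule.span O {x : OS A K (M + 1) |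
      ∃ G : Fin (M + 1) → ι, j ∉ A.cl G ∧ x = e A K G}) :
    ∃ z ∈ Lat A O (M + 1), Mj P j z = y := by
  induction hy using Submodule.span_induction with
  | mem x hx =>
    obtain ⟨G, hG, rfl⟩ := hx
    by_cases hI : A.Ind G
    · have h1 : dotProduct (A.L j) (P.v (A.cl G)) ≠ 0 := fun h => hG ((P.vmem G hI j).1 h)
      refine ⟨algebraMap ℂ K (dotProduct (A.L j) (P.v (A.cl G)))⁻¹ • e A K G,
        smul_mem_Lat O (hO _) (e_mem_Lat O G), ?_⟩
      rw [map_smul, Mj_e, smul_smul, ← map_mul, inv_mul_cancel₀ h1, map_one, one_smul]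
    · refine ⟨0, Submodule.zero_mem _, ?_⟩
      rw [map_zero, e_dep hI]
  | zero => exact ⟨0, Submodule.zero_mem _, map_zero _⟩
  | add x y _ _ hx hy =>
    obtain ⟨z, hz, hz2⟩ := hx
    obtain ⟨z', hz', hz2'⟩ := hy
    exact ⟨z + z', Submodule.add_mem _ hz hz', by rw [map_add, hz2, hz2']⟩
  | smul c x _ hx =>
    obtain ⟨z, hz, hz2⟩ := hx
    refine ⟨c • z, Submodule.smul_mem _ _ hz, ?_⟩
    have : Mj P j (c • z) = c • Mj P j z := by
      change Mj P j ((c : K) • z) = (c : K) • Mj P j z
      rw [map_smul]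
    rw [this, hz2]

end

/-- TSUR. -/
theorem tsur (hlem : LemdStmt) : TsurStmt := by
  intro ι _ _ M A P K _ _ O hO ρ j
  constructor
  · intro hρ x hx
    rw [T_apply]
    refine map_Lat O _ (fun G => ?_) (map_Lat O _ (fun G => ?_) (map_Lat O _ (fun F => ?_) hx))
    · rw [wX_apply]
      refine Submodule.sum_mem _ fun i _ => ?_
      rw [wd_e]
      exact smul_mem_Lat O (hρ i) (e_mem_Lat O _)
    · rw [Mj_e]
      exact smul_mem_Lat O (hO _) (e_mem_Lat O _)
    · rw [bd_e]
      refine Submodule.sum_mem _ fun k _ => ?_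
      refine smul_mem_Lat O ?_ (e_mem_Lat O _)
      exact O.pow_mem (O.neg_mem O.one_mem) _
  · intro hU x hx
    unfold Lat at hx
    induction hx using Submodule.span_induction with
    | mem x hx =>
      obtain ⟨F, rfl⟩ := hx
      by_cases hF : A.Ind F
      · have hcl := cl_univ hF
        obtain ⟨y, hy, hy2⟩ := hlem ι (M + 2) A K O ρ j hU (M + 1) F hF
          (by rw [hcl]; exact Finset.mem_univ j)
        rw [hcl] at hy2
        have hy3 : y ∈ Submodule.span O {x : OS A K (M + 1) |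
            ∃ G : Fin (M + 1) → ι, j ∉ A.cl G ∧ x = e A K G} := by
          refine Submodule.span_mono ?_ hy
          rintro x ⟨G, _, hG, rfl⟩
          exact ⟨G, hG, rfl⟩
        obtain ⟨z, hz, hz2⟩ := exists_Mj P O hO j hy3
        refine ⟨wd A K (M + 1) j z, map_Lat O _ (fun G => ?_) hz, ?_⟩
        · rw [wd_e]
          exact e_mem_Lat O _
        · rw [T_apply, bd_wd, map_sub, Mj_wd, sub_zero, hz2, hy2]
      · refine ⟨0, Submodule.zero_mem _, ?_⟩
        rw [map_zero, e_dep hF]
    | zero => exact ⟨0, Submodule.zero_mem _, map_zero _⟩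
    | add x y _ _ hx hy =>
      obtain ⟨z, hz, hz2⟩ := hx
      obtain ⟨z', hz', hz2'⟩ := hy
      exact ⟨z + z', Submodule.add_mem _ hz hz', by rw [map_add, hz2, hz2']⟩
    | smul c x _ hx =>
      obtain ⟨z, hz, hz2⟩ := hx
      refine ⟨c • z, Submodule.smul_mem _ _ hz, ?_⟩
      have : T P ρ j (c • z) = c • T P ρ j z := by
        change T P ρ j ((c : K) • z) = (c : K) • T P ρ j z
        rw [map_smul]
      rw [this, hz2]

end Pool.Agent.ND.H37
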